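import Mathlib

/-!
Locally finite perturbations of tournaments avoiding a fixed tournament: a five-vertex
tournament `T` such that every countably infinite `T`-free tournament has a locally finite
perturbation which is still `T`-free.
-/

namespace Pool.Agent.Results.MP_35c2f5_co.Disproof

/-- `r x y` means that there is an arc from `x` to `y`. A tournament has no loops, and every pair
of distinct vertices is joined by exactly one arc. -/
def IsTournament {V : Type} (r : V → V → Prop) : Prop :=
  (∀ x, ¬ r x x) ∧ ∀ x y, x ≠ y → (r x y ∨ r y x) ∧ ¬ (r x y ∧ r y x)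

/-- A tournament is transitive when its arc relation is transitive (so that it is a strict linear
order). -/
def IsTransitiveT {V : Type} (r : V → V → Prop) : Prop :=
  ∀ x y z, r x y → r y z → r x z

/-- `S` contains an induced copy of `T`. -/
def ContainsCopy {V W : Type} (S : V → V → Prop) (T : W → W → Prop) : Prop :=
  ∃ f : W → V, Function.Injective f ∧ ∀ a b, T a b ↔ S (f a) (f b)

/-- Reverse the direction of every arc in `F` and keep all other arcs. -/
def reverseArcs {V : Type} (S : V → V → Prop) (F : Set (V × V)) : V → V → Prop :=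
  fun x y => (S x y ∧ (x, y) ∉ F) ∨ (S y x ∧ (y, x) ∈ F)

/-- `S'` is a locally finite perturbation of `S`: it is obtained by reversing a nonempty set `F`
of arcs of `S` such that every vertex is incident to only finitely many arcs of `F`. -/
def IsLocallyFinitePerturbation {V : Type} (S S' : V → V → Prop) : Prop :=
  ∃ F : Set (V × V), F.Nonempty ∧ (∀ e ∈ F, S e.1 e.2) ∧
    (∀ v : V, {e : V × V | e ∈ F ∧ (e.1 = v ∨ e.2 = v)}.Finite) ∧ S' = reverseArcs S F

/-- The tournament `C_3[TT_2, TT_2, 1]`: `{0,1} ⇒ {2,3} ⇒ 4 ⇒ {0,1}`, `0 → 1`, `2 → 3`. -/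
def T5 : Fin 5 → Fin 5 → Prop := fun a b =>
  (a, b) ∈ ({(0, 1), (2, 3), (0, 2), (0, 3), (1, 2), (1, 3), (2, 4), (3, 4), (4, 0), (4, 1)} :
    Finset (Fin 5 × Fin 5))

instance : DecidableRel T5 := fun a b => by unfold T5; infer_instance

lemma T5_isTournament : IsTournament T5 := by
  unfold IsTournament
  decide

lemma T5_not_transitive : ¬ IsTransitiveT T5 := by
  unfold IsTransitiveT
  decide

variable {V : Type}

/-- The pattern describing copies of `T5`. -/
def Pattern (S : V → V → Prop) : Prop :=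
  ∃ c a a' b b', a ≠ a' ∧ b ≠ b' ∧ S c a ∧ S c a' ∧ S b c ∧ S b' c ∧
    S a b ∧ S a b' ∧ S a' b ∧ S a' b'

lemma pattern_of_copy {S : V → V → Prop} (h : ContainsCopy S T5) : Pattern S := by
  obtain ⟨f, hf, h⟩ := h
  refine ⟨f 4, f 0, f 1, f 2, f 3, ?_, ?_, ?_, ?_, ?_, ?_, ?_, ?_, ?_, ?_⟩
  · exact hf.ne (by decide)
  · exact hf.ne (by decide)
  all_goals exact (h _ _).mp (by decide)

lemma copy_of_pattern {S : V → V → Prop} (hS : IsTournament S) (h : Pattern S) :
    ContainsCopy S T5 := by
  have asymm : ∀ x y, S x y → ¬ S y x := by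
    intro x y h1 h2
    by_cases hxy : x = y
    · subst hxy; exact hS.1 _ h1
    · exact (hS.2 x y hxy).2 ⟨h1, h2⟩
  -- oriented version
  have key : ∀ c a a' b b', S a a' → S b b' → S c a → S c a' → S b c → S b' c →
      S a b → S a b' → S a' b → S a' b' → ContainsCopy S T5 := by
    intro c a a' b b' h1 h2 h3 h4 h5 h6 h7 h8 h9 h10
    have ne : ∀ x y, S x y → x ≠ y := by
      rintro x y h rfl
      exact hS.1 _ h
    refine ⟨![a, a', b, b', c], ?_, ?_⟩
    · intro i j hij
      fin_cases i <;> fin_cases j <;> simp at hij ⊢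
      · exact ne _ _ h1 hij
      · exact ne _ _ h7 hij
      · exact ne _ _ h8 hij
      · exact ne _ _ h3 hij.symm
      · exact ne _ _ h1 hij.symm
      · exact ne _ _ h9 hij
      · exact ne _ _ h10 hij
      · exact ne _ _ h4 hij.symm
      · exact ne _ _ h7 hij.symm
      · exact ne _ _ h9 hij.symm
      · exact ne _ _ h2 hij
      · exact ne _ _ h5 hij
      · exact ne _ _ h8 hij.symm
      · exact ne _ _ h10 hij.symm
      · exact ne _ _ h2 hij.symm
      · exact ne _ _ h6 hij
      · exact ne _ _ h3 hij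
      · exact ne _ _ h4 hij
      · exact ne _ _ h5 hij.symm
      · exact ne _ _ h6 hij.symm
    · have e : ∀ i j : Fin 5, i ≠ j → ∀ x y : V, S x y → T5 i j → (T5 i j ↔ S x y) := by
        intro i j _ x y h1 h2
        exact ⟨fun _ => h1, fun _ => h2⟩
      intro i j
      fin_cases i <;> fin_cases j
      all_goals
        first
        | exact ⟨fun h => absurd h (by decide), fun h => absurd h (hS.1 _)⟩
        | exact ⟨fun _ => by assumption, fun _ => by decide⟩
        | exact ⟨fun h => absurd h (by decide), fun h => absurd h (asymm _ _ (by assumption))⟩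
  obtain ⟨c, a, a', b, b', ha, hb, h3, h4, h5, h6, h7, h8, h9, h10⟩ := h
  rcases (hS.2 a a' ha).1 with e1 | e1 <;> rcases (hS.2 b b' hb).1 with e2 | e2
  · exact key c a a' b b' e1 e2 h3 h4 h5 h6 h7 h8 h9 h10
  · exact key c a a' b' b e1 e2 h3 h4 h6 h5 h8 h7 h10 h9
  · exact key c a' a b b' e1 e2 h4 h3 h5 h6 h9 h10 h7 h8
  · exact key c a' a b' b e1 e2 h4 h3 h6 h5 h10 h9 h8 h7

/-- `(x,y)` is an arc lying in a directed triangle. -/
def Cyc (S : V → V → Prop) (x y : V) : Prop := S x y ∧ ∃ z, S y z ∧ S z x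

/-- A set without three distinct elements is finite. -/
lemma finite_of_no_three {s : Set V}
    (h : ∀ x ∈ s, ∀ y ∈ s, ∀ z ∈ s, x ≠ y → x ≠ z → y ≠ z → False) : s.Finite := by
  classical
  by_contra hinf
  have hinf' : s.Infinite := hinf
  obtain ⟨t, ht, hc⟩ := hinf'.exists_subset_card_eq 3
  obtain ⟨x, y, z, hxy, hxz, hyz, rfl⟩ := Finset.card_eq_three.mp hc
  exact h x (ht (by simp)) y (ht (by simp)) z (ht (by simp)) hxy hxz hyz

/-- An infinite set of vertices contains a vertex with three in-neighbours in the set, provided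
in-neighbourhoods inside the set are finite. -/
lemma exists_three_in {S : V → V → Prop} (hS : ∀ x y, x ≠ y → S x y ∨ S y x) {s : Set V}
    (hinf : s.Infinite) (hfin : ∀ y ∈ s, {w | w ∈ s ∧ S w y}.Finite) :
    ∃ y ∈ s, ∃ a ∈ s, ∃ b ∈ s, ∃ c ∈ s, a ≠ b ∧ a ≠ c ∧ b ≠ c ∧ S a y ∧ S b y ∧ S c y := by
  classical
  obtain ⟨t, ht, hc⟩ := hinf.exists_subset_card_eq 3
  obtain ⟨a, b, c, hab, hac, hbc, rfl⟩ := Finset.card_eq_three.mp hc
  have ha : a ∈ s := ht (by simp)
  have hb : b ∈ s := ht (by simp)
  have hc : c ∈ s := ht (by simp)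
  have hbad : ({w | w ∈ s ∧ S w a} ∪ {w | w ∈ s ∧ S w b} ∪ {w | w ∈ s ∧ S w c} ∪
      {a, b, c}).Finite :=
    (((hfin a ha).union (hfin b hb)).union (hfin c hc)).union (Set.toFinite _)
  obtain ⟨y, hy, hy2⟩ := (hinf.sdiff hbad).nonempty
  simp only [Set.mem_union, Set.mem_ofPred_eq, Set.mem_insert_iff, Set.mem_singleton_iff,
    not_or, not_and] at hy2
  obtain ⟨⟨⟨h1, h2⟩, h3⟩, h4, h5, h6⟩ := hy2
  exact ⟨y, hy, a, ha, b, hb, c, hc, hab, hac, hbc,
    (hS a y (Ne.symm h4)).resolve_right (h1 hy), (hS b y (Ne.symm h5)).resolve_right (h2 hy),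
    (hS c y (Ne.symm h6)).resolve_right (h3 hy)⟩

/-- The main step: every tournament with at least two vertices and without the pattern has a
locally finite perturbation without the pattern. -/
theorem exists_perturbation [Nontrivial V] (S : V → V → Prop) (hS : IsTournament S)
    (hfree : ¬ Pattern S) :
    ∃ S' : V → V → Prop, IsLocallyFinitePerturbation S S' ∧ ¬ Pattern S' := by
  classical
  have irr := hS.1
  have tot : ∀ x y, x ≠ y → S x y ∨ S y x := fun x y h => (hS.2 x y h).1
  have ne : ∀ x y, S x y → x ≠ y := by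
    rintro x y h rfl
    exact irr _ h
  have asymm : ∀ x y, S x y → ¬ S y x := by
    intro x y h1 h2
    exact (hS.2 x y (ne x y h1)).2 ⟨h1, h2⟩
  have nrev : ∀ x y, x ≠ y → ¬ S x y → S y x := fun x y h1 h2 => (tot x y h1).resolve_left h2
  -- reversing a single arc
  have single : ∀ x y, S x y → IsLocallyFinitePerturbation S (reverseArcs S {(x, y)}) := by
    intro x y hxy
    refine ⟨{(x, y)}, Set.singleton_nonempty _, ?_, ?_, rfl⟩
    · intro e he
      rw [Set.mem_singleton_iff] at he
      subst he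
      exact hxy
    · intro v
      exact (Set.finite_singleton (x, y)).subset (fun e he => he.1)
  have srev : ∀ x y u v, reverseArcs S {(x, y)} u v → S u v ∨ (u = y ∧ v = x) := by
    rintro x y u v (h | h)
    · exact Or.inl h.1
    · right
      have h2 := h.2
      rw [Set.mem_singleton_iff, Prod.mk.injEq] at h2
      exact ⟨h2.2, h2.1⟩
  have snot : ∀ x y, S x y → ¬ reverseArcs S {(x, y)} x y := by
    rintro x y hxy (h | h)
    · exact h.2 rfl
    · exact asymm _ _ hxy h.1
  by_cases htr : IsTransitiveT S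
  · -- transitive case: reverse any arc
    obtain ⟨p, q, hpq⟩ := exists_pair_ne V
    obtain ⟨x, y, hxy⟩ : ∃ x y, S x y := by
      rcases tot p q hpq with h | h
      · exact ⟨p, q, h⟩
      · exact ⟨q, p, h⟩
    refine ⟨_, single x y hxy, ?_⟩
    rintro ⟨c, a, a', b, b', ha, hb, h3, h4, h5, h6, h7, h8, h9, h10⟩
    have notri : ∀ u v w, S u v → S v w → S w u → False := fun u v w e1 e2 e3 =>
      asymm _ _ (htr _ _ _ e1 e2) e3
    have hxne : x ≠ y := ne x y hxy
    have hne : ∀ u v, reverseArcs S {(x, y)} u v → u ≠ v := by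
      rintro u v h rfl
      rcases srev _ _ _ _ h with h | ⟨h1, h2⟩
      · exact irr _ h
      · exact hxne (h2.symm.trans h1)
    have tri : ∀ u v w, reverseArcs S {(x, y)} u v → reverseArcs S {(x, y)} v w →
        reverseArcs S {(x, y)} w u →
        (u = y ∧ v = x) ∨ (v = y ∧ w = x) ∨ (w = y ∧ u = x) := by
      intro u v w e1 e2 e3
      rcases srev _ _ _ _ e1 with g1 | g1
      · rcases srev _ _ _ _ e2 with g2 | g2
        · rcases srev _ _ _ _ e3 with g3 | g3
          · exact (notri _ _ _ g1 g2 g3).elim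
          · exact Or.inr (Or.inr g3)
        · exact Or.inr (Or.inl g2)
      · exact Or.inl g1
    rcases tri c a b h3 h7 h5 with ⟨g1, g2⟩ | ⟨g1, g2⟩ | ⟨g1, g2⟩ <;>
      rcases tri c a' b' h4 h10 h6 with ⟨k1, k2⟩ | ⟨k1, k2⟩ | ⟨k1, k2⟩
    · exact ha (g2.trans k2.symm)
    · exact hne _ _ h4 (g1.trans k1.symm)
    · exact hxne (k2.symm.trans g1)
    · exact hne _ _ h3 (k1.trans g1.symm)
    · exact ha (g1.trans k1.symm)
    · exact hne _ _ h5 (g2.trans k2.symm)
    · exact hxne (g2.symm.trans k1)
    · exact hne _ _ h6 (k2.trans g2.symm)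
    · exact hb (g1.trans k1.symm)
  by_cases hD : ∀ x y, S x y → ∃ w, S x w ∧ S w y
  swap
  · -- an arc with nothing in between can be reversed
    push Not at hD
    obtain ⟨x, y, hxy, hD⟩ := hD
    refine ⟨_, single x y hxy, ?_⟩
    have hxne : x ≠ y := ne x y hxy
    have hn := snot x y hxy
    rintro ⟨c, a, a', b, b', ha, hb, h3, h4, h5, h6, h7, h8, h9, h10⟩
    -- the centre and the sides
    have hne : ∀ u v, reverseArcs S {(x, y)} u v → u ≠ v := by
      rintro u v h rfl
      rcases srev _ _ _ _ h with h | ⟨h1, h2⟩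
      · exact irr _ h
      · exact hxne (h2.symm.trans h1)
    -- if an arc of the pattern is the reversed one we find a vertex in between
    have back : ∀ u v, reverseArcs S {(x, y)} u v → ¬ (u = y ∧ v = x) → S u v := fun u v h1 h2 =>
      (srev _ _ _ _ h1).resolve_right h2
    have cross : ∀ u v w, reverseArcs S {(x, y)} u v → reverseArcs S {(x, y)} v w →
        reverseArcs S {(x, y)} w u → ¬ (u = y ∧ v = x) := by
      rintro u v w e1 e2 e3 ⟨rfl, rfl⟩
      have f1 : S v w := back _ _ e2 (by rintro ⟨h, -⟩; exact hxne h)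
      have f2 : S w u := back _ _ e3 (by rintro ⟨-, h⟩; exact hxne h.symm)
      exact hD w f1 f2
    apply hfree
    refine ⟨c, a, a', b, b', ha, hb, ?_, ?_, ?_, ?_, ?_, ?_, ?_, ?_⟩
    · exact back _ _ h3 (cross _ _ _ h3 h7 h5)
    · exact back _ _ h4 (cross _ _ _ h4 h9 h5)
    · exact back _ _ h5 (cross _ _ _ h5 h3 h7)
    · exact back _ _ h6 (cross _ _ _ h6 h3 h8)
    · exact back _ _ h7 (cross _ _ _ h7 h5 h3)
    · exact back _ _ h8 (cross _ _ _ h8 h6 h3)
    · exact back _ _ h9 (cross _ _ _ h9 h5 h4)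
    · exact back _ _ h10 (cross _ _ _ h10 h6 h4)
  · -- main case
    have plus : ∀ x y z e e', S x y → S y z → S z x → S x e → S e y → S e z →
        S x e' → S e' y → S e' z → e ≠ e' → False := by
      intro x y z e e' hxy hyz hzx h1 h2 h3 h4 h5 h6 hee
      obtain ⟨w, hw1, hw2⟩ := hD z x hzx
      have hzw : z ≠ w := ne _ _ hw1
      have hxw : x ≠ w := (ne _ _ hw2).symm
      -- at most one of `e, e', y` points to `w`
      have c1 : ∀ p p', p ≠ p' → S x p → S x p' → S p z → S p' z → S p w → S p' w → False := by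
        intro p p' hpp q1 q2 q3 q4 q5 q6
        exact hfree ⟨x, p, p', z, w, hpp, hzw, q1, q2, hzx, hw2, q3, q5, q4, q6⟩
      have c2 : ∀ p p', p ≠ p' → S x p → S x p' → S p z → S p' z → S w p → S w p' → False := by
        intro p p' hpp q1 q2 q3 q4 q5 q6
        exact hfree ⟨z, x, w, p, p', hxw, hpp, hzx, hw1, q3, q4, q1, q2, q5, q6⟩
      have wne : ∀ p, S p z → p ≠ w := by
        rintro p hp rfl
        exact asymm _ _ hp hw1
      have hey : e ≠ y := ne _ _ h2
      have hey' : e' ≠ y := ne _ _ h5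
      rcases tot e w (wne _ h3) with g1 | g1 <;> rcases tot e' w (wne _ h6) with g2 | g2 <;>
        rcases tot y w (wne _ hyz) with g3 | g3
      · exact c1 e e' hee h1 h4 h3 h6 g1 g2
      · exact c1 e e' hee h1 h4 h3 h6 g1 g2
      · exact c1 e y hey h1 hxy h3 hyz g1 g3
      · exact c2 e' y hey' h4 hxy h6 hyz g2 g3
      · exact c1 e' y hey' h4 hxy h6 hyz g2 g3
      · exact c2 e y hey h1 hxy h3 hyz g1 g3
      · exact c2 e e' hee h1 h4 h3 h6 g1 g2
      · exact c2 e e' hee h1 h4 h3 h6 g1 g2
    have minus : ∀ x y z e e', S x y → S y z → S z x → S x e → S e y → S z e →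
        S x e' → S e' y → S z e' → e ≠ e' → False := by
      intro x y z e e' hxy hyz hzx h1 h2 h3 h4 h5 h6 hee
      obtain ⟨w, hw1, hw2⟩ := hD y z hyz
      have hzw : z ≠ w := (ne _ _ hw2).symm
      have hyw : y ≠ w := ne _ _ hw1
      have c1 : ∀ p p', p ≠ p' → S p y → S p' y → S z p → S z p' → S w p → S w p' → False := by
        intro p p' hpp q1 q2 q3 q4 q5 q6
        exact hfree ⟨y, z, w, p, p', hzw, hpp, hyz, hw1, q1, q2, q3, q4, q5, q6⟩
      have c2 : ∀ p p', p ≠ p' → S p y → S p' y → S z p → S z p' → S p w → S p' w → False := by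
        intro p p' hpp q1 q2 q3 q4 q5 q6
        exact hfree ⟨z, p, p', y, w, hpp, hyw, q3, q4, hyz, hw2, q1, q5, q2, q6⟩
      have wne : ∀ p, S z p → p ≠ w := by
        rintro p hp rfl
        exact asymm _ _ hp hw2
      have hex : x ≠ e := ne _ _ h1
      have hex' : x ≠ e' := ne _ _ h4
      rcases tot e w (wne _ h3) with g1 | g1 <;> rcases tot e' w (wne _ h6) with g2 | g2 <;>
        rcases tot x w (wne _ hzx) with g3 | g3
      · exact c2 e e' hee h2 h5 h3 h6 g1 g2
      · exact c2 e e' hee h2 h5 h3 h6 g1 g2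
      · exact c2 x e hex hxy h2 hzx h3 g3 g1
      · exact c1 x e' hex' hxy h5 hzx h6 g3 g2
      · exact c2 x e' hex' hxy h5 hzx h6 g3 g2
      · exact c1 x e hex hxy h2 hzx h3 g3 g1
      · exact c1 e e' hee h2 h5 h3 h6 g1 g2
      · exact c1 e e' hee h2 h5 h3 h6 g1 g2
    -- an arc in a triangle has at most two vertices in between
    have three : ∀ x y, Cyc S x y → ∀ p q r, S x p → S p y → S x q → S q y → S x r → S r y →
        p ≠ q → p ≠ r → q ≠ r → False := by
      rintro x y ⟨hxy, z, hyz, hzx⟩ p q r hp1 hp2 hq1 hq2 hr1 hr2 hpq hpr hqr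
      have zne : ∀ e, S x e → e ≠ z := by
        rintro e he rfl
        exact asymm _ _ he hzx
      rcases tot p z (zne _ hp1) with g1 | g1 <;> rcases tot q z (zne _ hq1) with g2 | g2 <;>
        rcases tot r z (zne _ hr1) with g3 | g3
      · exact plus x y z p q hxy hyz hzx hp1 hp2 g1 hq1 hq2 g2 hpq
      · exact plus x y z p q hxy hyz hzx hp1 hp2 g1 hq1 hq2 g2 hpq
      · exact plus x y z p r hxy hyz hzx hp1 hp2 g1 hr1 hr2 g3 hpr
      · exact minus x y z q r hxy hyz hzx hq1 hq2 g2 hr1 hr2 g3 hqr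
      · exact plus x y z q r hxy hyz hzx hq1 hq2 g2 hr1 hr2 g3 hqr
      · exact minus x y z p r hxy hyz hzx hp1 hp2 g1 hr1 hr2 g3 hpr
      · exact minus x y z p q hxy hyz hzx hp1 hp2 g1 hq1 hq2 g2 hpq
      · exact minus x y z p q hxy hyz hzx hp1 hp2 g1 hq1 hq2 g2 hpq
    have Dfin : ∀ x y, Cyc S x y → {w | S x w ∧ S w y}.Finite := by
      intro x y hxy
      apply finite_of_no_three
      rintro p ⟨p1, p2⟩ q ⟨q1, q2⟩ r ⟨r1, r2⟩ h1 h2 h3
      exact three x y hxy p q r p1 p2 q1 q2 r1 r2 h1 h2 h3
    -- local finiteness of the triangle arcs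
    have outfin : ∀ x, {y | Cyc S x y}.Finite := by
      intro x
      by_contra hinf
      have hinf' : {y | Cyc S x y}.Infinite := hinf
      obtain ⟨y, hy, a, ha, b, hb, c, hc, hab, hac, hbc, h1, h2, h3⟩ :=
        exists_three_in (S := S) tot hinf' (by
          intro y hy
          exact (Dfin x y hy).subset (fun w hw => ⟨hw.1.1, hw.2⟩))
      exact three x y hy a b c ha.1 h1 hb.1 h2 hc.1 h3 hab hac hbc
    have infin : ∀ x, {y | Cyc S y x}.Finite := by
      intro x
      by_contra hinf
      have hinf' : {y | Cyc S y x}.Infinite := hinf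
      obtain ⟨y, hy, a, ha, b, hb, c, hc, hab, hac, hbc, h1, h2, h3⟩ :=
        exists_three_in (S := fun u v => S v u) (fun u v huv => (tot u v huv).symm) hinf' (by
          intro y hy
          exact (Dfin y x hy).subset (fun w hw => ⟨hw.2, hw.1.1⟩))
      exact three y x hy a b c h1 ha.1 h2 hb.1 h3 hc.1 hab hac hbc
    -- the other arcs form a strict partial order
    let R : V → V → Prop := fun x y => x = y ∨ (S x y ∧ ¬ Cyc S x y)
    have Rtrans : ∀ x y z, S x y → ¬ Cyc S x y → S y z → ¬ Cyc S y z → S x z ∧ ¬ Cyc S x z := by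
      intro x y z h1 h2 h3 h4
      have hxz : x ≠ z := by
        rintro rfl
        exact asymm _ _ h1 h3
      have hS' : S x z := by
        by_contra hcon
        exact h2 ⟨h1, z, h3, nrev x z hxz hcon⟩
      refine ⟨hS', ?_⟩
      rintro ⟨-, w, hw1, hw2⟩
      have hyw : y ≠ w := by
        rintro rfl
        exact asymm _ _ h3 hw1
      rcases tot y w hyw with g | g
      · exact h2 ⟨h1, w, g, hw2⟩
      · exact h4 ⟨h3, w, hw1, g⟩
    have hRpo : IsPartialOrder V R :=
      { refl := fun x => Or.inl rfl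
        trans := by
          rintro x y z (rfl | h1) (rfl | h2)
          · exact Or.inl rfl
          · exact Or.inr h2
          · exact Or.inr h1
          · exact Or.inr (Rtrans x y z h1.1 h1.2 h2.1 h2.2)
        antisymm := by
          rintro x y (rfl | h1) (h2 | h2)
          · rfl
          · rfl
          · exact h2.symm
          · exact absurd h2.1 (asymm _ _ h1.1) }
    obtain ⟨s, hs, hRs⟩ := extend_partialOrder R
    have santi : ∀ x y, s x y → s y x → x = y := fun x y h1 h2 => antisymm_of s h1 h2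
    have strans : ∀ x y z, s x y → s y z → s x z := fun x y z h1 h2 => trans_of s h1 h2
    have stot : ∀ x y, s x y ∨ s y x := fun x y => total_of s x y
    let F : Set (V × V) := {e | S e.1 e.2 ∧ s e.2 e.1}
    have hFcyc : ∀ e ∈ F, Cyc S e.1 e.2 := by
      rintro ⟨x, y⟩ ⟨h1, h2⟩
      by_contra hcon
      have h3 : s x y := hRs x y (Or.inr ⟨h1, hcon⟩)
      exact ne _ _ h1 (santi _ _ h3 h2)
    -- the perturbed tournament is the strict linear order
    have hS' : ∀ x y, reverseArcs S F x y → s x y ∧ x ≠ y := by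
      rintro x y (⟨h1, h2⟩ | ⟨h1, h2⟩)
      · refine ⟨?_, ne _ _ h1⟩
        rcases stot x y with h | h
        · exact h
        · exact absurd ⟨h1, h⟩ h2
      · exact ⟨h2.2, (ne _ _ h1).symm⟩
    refine ⟨reverseArcs S F, ⟨F, ?_, ?_, ?_, rfl⟩, ?_⟩
    · -- nonempty
      by_contra hemp
      rw [Set.not_nonempty_iff_eq_empty] at hemp
      apply htr
      intro x y z h1 h2
      have hs1 : ∀ u v, S u v → s u v := by
        intro u v huv
        rcases stot u v with h | h
        · exact h
        · have : (u, v) ∈ F := ⟨huv, h⟩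
          rw [hemp] at this
          exact absurd this (Set.notMem_empty _)
      have h3 := strans _ _ _ (hs1 _ _ h1) (hs1 _ _ h2)
      have hxz : x ≠ z := by
        rintro rfl
        exact asymm _ _ h1 h2
      by_contra hcon
      have h4 := hs1 _ _ (nrev x z hxz hcon)
      exact hxz (santi _ _ h3 h4)
    · exact fun e he => he.1
    · intro v
      have h1 : ((fun y => (v, y)) '' {y | Cyc S v y}).Finite := (outfin v).image _
      have h2 : ((fun y => (y, v)) '' {y | Cyc S y v}).Finite := (infin v).image _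
      refine (h1.union h2).subset ?_
      rintro ⟨x, y⟩ ⟨he, h | h⟩
      · left
        have hx : x = v := h
        subst hx
        exact ⟨y, hFcyc _ he, rfl⟩
      · right
        have hy : y = v := h
        subst hy
        exact ⟨x, hFcyc _ he, rfl⟩
    · rintro ⟨c, a, a', b, b', ha, hb, h3, h4, h5, h6, h7, h8, h9, h10⟩
      have g1 := hS' _ _ h3
      have g2 := hS' _ _ h7
      have g3 := hS' _ _ h5
      have g4 := strans _ _ _ g1.1 g2.1
      exact g3.2 (santi _ _ g3.1 g4)

/-- **Disproof of Q1.** There is a non-transitive tournament `T` on five vertices such that every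
countably infinite `T`-free tournament has a locally finite perturbation that is still
`T`-free. -/
theorem result :
    ∃ T : Fin 5 → Fin 5 → Prop, IsTournament T ∧ ¬ IsTransitiveT T ∧
      ∀ (V : Type) [Countable V] [Infinite V] (S : V → V → Prop), IsTournament S →
        ¬ ContainsCopy S T →
          ∃ S' : V → V → Prop, IsLocallyFinitePerturbation S S' ∧ ¬ ContainsCopy S' T := by
  refine ⟨T5, T5_isTournament, T5_not_transitive, ?_⟩
  intro V _ _ S hS hfree
  obtain ⟨S', h1, h2⟩ := exists_perturbation S hS (fun h => hfree (copy_of_pattern hS h))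
  exact ⟨S', h1, fun h => h2 (pattern_of_copy h)⟩

end Pool.Agent.Results.MP_35c2f5_co.Disproof
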